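import Mathlib
import Pool.Agent.K9.Defs
import Pool.Agent.K9.Red
import Pool.Agent.K9.Main
import Pool.Agent.K9.C.Root

/-!
# The complete graph on nine vertices admits no open sphere of influence drawing

`Pool.Agent.K9.osig P` is the open sphere of influence graph of the finite point set `P` in the
Euclidean plane, `Pool.Agent.K9.AdmitsOSI G` says that `G` is isomorphic to such a graph.
-/

open Pool.Agent.K9 in
theorem Pool.Agent.Results.MP_e7c8aa_co.K9NotOSI.result :
    ¬ AdmitsOSI (⊤ : SimpleGraph (Fin 9)) :=
  reduce fun _ _ h1 h2 h => root C.bad_root h1 h2 h
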